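import Pool.Agent.H31.EH.Targets

/-!
# Row ITE of the board ehf (MP_e21eee_nt): the iteration
-/

set_option autoImplicit false

open Finset MeasureTheory

namespace Pool.Agent.H38.EH

open Pool.Agent.H24.CL Pool.Agent.H24.LV Pool.Agent.H26.ES Pool.Agent.H31.EH

private lemma two_pow_le_exp (a : ℕ) : (2 : ℝ) ^ a ≤ Real.exp a := by
  have h1 : (2 : ℝ) ≤ Real.exp 1 := by
    have := Real.add_one_le_exp (1 : ℝ)
    linarith
  calc (2 : ℝ) ^ a ≤ (Real.exp 1) ^ a := pow_le_pow_left₀ (by norm_num) h1 a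
    _ = Real.exp a := by
      rw [← Real.exp_nat_mul]
      simp

private lemma mu_lower {ρ : ℝ} (h0 : 0 < ρ) (h1 : ρ ≤ 1) (n : ℕ) :
    Real.exp (-(3 * n * (1 + Real.log (1 / ρ)))) ≤ 4 * (ρ / 8) ^ n := by
  have h8 : Real.log 8 ≤ 3 := by
    rw [Real.log_le_iff_le_exp (by norm_num)]
    have := two_pow_le_exp 3
    norm_num at this
    linarith
  have hlog : Real.log (1 / ρ) = -Real.log ρ := by rw [one_div, Real.log_inv]
  have hl0 : 0 ≤ Real.log (1 / ρ) := Real.log_nonneg (by rw [le_div_iff₀ h0]; linarith)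
  have h2 : (ρ / 8) ^ n = Real.exp (n * Real.log (ρ / 8)) := by
    rw [mul_comm, Real.exp_mul, Real.exp_log (by positivity), Real.rpow_natCast]
  have hn : (0 : ℝ) ≤ n := Nat.cast_nonneg n
  have h3 : -(3 * n * (1 + Real.log (1 / ρ))) ≤ n * Real.log (ρ / 8) := by
    rw [Real.log_div h0.ne' (by norm_num)]
    have e1 : -(3 * (1 + Real.log (1 / ρ))) ≤ Real.log ρ - Real.log 8 := by linarith
    have e2 := mul_le_mul_of_nonneg_left e1 hn
    linarith
  have hp : 0 < (ρ / 8) ^ n := by positivity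
  calc Real.exp (-(3 * n * (1 + Real.log (1 / ρ)))) ≤ Real.exp (n * Real.log (ρ / 8)) :=
        Real.exp_le_exp.mpr h3
    _ = (ρ / 8) ^ n := h2.symm
    _ ≤ 4 * (ρ / 8) ^ n := by linarith

/-- a lower bound used twice -/
private lemma low_num {n : ℕ} {l μ : ℝ} (hμ : Real.exp (-(3 * n * l)) ≤ μ) (c : ℕ) :
    Real.exp (-(12 * n * l + 4 * n + c)) ≤ μ ^ 4 * ((1 / 4 : ℝ) ^ n) ^ 2 / 2 ^ c := by
  have h1 : Real.exp (-(12 * n * l)) ≤ μ ^ 4 := by
    calc Real.exp (-(12 * n * l)) = Real.exp (-(3 * n * l)) ^ 4 := by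
          rw [← Real.exp_nat_mul]
          congr 1
          push_cast
          ring
      _ ≤ μ ^ 4 := pow_le_pow_left₀ (Real.exp_nonneg _) hμ 4
  have h2 : Real.exp (-(4 * (n : ℝ))) ≤ ((1 / 4 : ℝ) ^ n) ^ 2 := by
    have e1 := two_pow_le_exp (4 * n)
    have e2 : ((1 / 4 : ℝ) ^ n) ^ 2 = ((2 : ℝ) ^ (4 * n))⁻¹ := by
      rw [← pow_mul, mul_comm n 2, pow_mul, pow_mul, ← inv_pow]
      norm_num
    rw [e2, Real.exp_neg]
    refine inv_anti₀ (by positivity) ?_
    push_cast at e1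
    exact e1
  have h3 : Real.exp (-(c : ℝ)) ≤ ((2 : ℝ) ^ c)⁻¹ := by
    rw [Real.exp_neg]
    exact inv_anti₀ (by positivity) (two_pow_le_exp c)
  have h4 : -(12 * n * l + 4 * n + (c : ℝ)) = -(12 * n * l) + -(4 * (n : ℝ)) + -(c : ℝ) := by ring
  rw [h4, Real.exp_add, Real.exp_add, div_eq_mul_inv]
  exact mul_le_mul (mul_le_mul h1 h2 (Real.exp_nonneg _) (by positivity)) h3 (Real.exp_nonneg _)
    (by positivity)

private lemma step_num {n j : ℕ} {l A C z kk μ : ℝ} (hn : 1 ≤ n) (hl : 1 ≤ l) (hC : 1 ≤ C)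
    (hkk : 0 ≤ kk) (hA : 32 + C + kk ≤ A) (hμ : Real.exp (-(3 * n * l)) ≤ μ)
    (hz0 : 0 < z) (hz : z ≤ Real.exp (-(A * (2 * n) * (j + 2) * l))) :
    (n : ℝ) ^ 2 * (C + 3 + kk) * z ≤
      Real.exp (-(A * n * (j + 1) * l)) * (μ ^ 4 * ((1 / 4 : ℝ) ^ n) ^ 2 / 2 ^ 11) := by
  have hn1 : (1 : ℝ) ≤ n := by exact_mod_cast hn
  have hj : (0 : ℝ) ≤ j := Nat.cast_nonneg j
  have e1 : (n : ℝ) ^ 2 ≤ Real.exp (2 * n) := by
    have e2 : (n : ℝ) ≤ Real.exp n := by
      have := Real.add_one_le_exp (n : ℝ)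
      linarith
    calc (n : ℝ) ^ 2 ≤ Real.exp n ^ 2 := pow_le_pow_left₀ (by positivity) e2 2
      _ = Real.exp (2 * n) := by
        rw [← Real.exp_nat_mul]
        norm_num
  have e3 : C + 3 + kk ≤ Real.exp (C + 3 + kk) := by
    have := Real.add_one_le_exp (C + 3 + kk)
    linarith
  have e4 := low_num hμ 11
  have hnl : 1 ≤ (n : ℝ) * l := by nlinarith
  have hnl1 : (n : ℝ) ≤ n * l := by nlinarith
  calc (n : ℝ) ^ 2 * (C + 3 + kk) * z ≤
      Real.exp (2 * n) * Real.exp (C + 3 + kk) * Real.exp (-(A * (2 * n) * (j + 2) * l)) := by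
        exact mul_le_mul (mul_le_mul e1 e3 (by linarith) (Real.exp_nonneg _)) hz hz0.le
          (by positivity)
    _ = Real.exp (2 * n + (C + 3 + kk) + -(A * (2 * n) * (j + 2) * l)) := by
        rw [Real.exp_add (2 * n + (C + 3 + kk)), Real.exp_add (2 * n) (C + 3 + kk)]
    _ ≤ Real.exp (-(A * n * (j + 1) * l) + -(12 * n * l + 4 * n + (11 : ℕ))) := by
        apply Real.exp_le_exp.mpr
        push_cast
        have a1 : (32 + C + kk) * (n * l) ≤ A * (n * l) :=
          mul_le_mul_of_nonneg_right hA (by linarith)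
        have a2 : A * (n * l) * 1 ≤ A * (n * l) * (j + 3) :=
          mul_le_mul_of_nonneg_left (by linarith) (by
            have : 0 ≤ A := by linarith
            positivity)
        have a3 : (20 + C + kk) * 1 ≤ (20 + C + kk) * (n * l) :=
          mul_le_mul_of_nonneg_left hnl (by linarith)
        have a4 : 6 * (n : ℝ) ≤ 6 * (n * l) := by linarith
        nlinarith [a1, a2, a3, a4]
    _ = Real.exp (-(A * n * (j + 1) * l)) * Real.exp (-(12 * n * l + 4 * n + (11 : ℕ))) :=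
        Real.exp_add _ _
    _ ≤ _ := mul_le_mul_of_nonneg_left e4 (Real.exp_nonneg _)

private lemma err_num {n : ℕ} {C z kk P m : ℝ} (hn : 1 ≤ n) (hC : 1 ≤ C) (hkk : 0 ≤ kk)
    (hz0 : 0 < z) (hz1 : z ≤ 1) (hm : 1 ≤ m) (hPz : P * z ^ 12 = 1) (hmz : m ^ 3 * z ^ 6 ≤ 1) :
    (n : ℝ) * (n * (C * m ^ 3 / (z ^ 3 * P) + z ^ 2) / z + 2 * z + kk * m / P) ≤
      (n : ℝ) ^ 2 * (C + 3 + kk) * z := by
  have hn1 : (1 : ℝ) ≤ n := by exact_mod_cast hn
  have hP : P = (z ^ 12)⁻¹ := by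
    field_simp
    linarith
  have e1 : C * m ^ 3 / (z ^ 3 * P) ≤ C * z ^ 3 := by
    have e2 : C * m ^ 3 / (z ^ 3 * P) = C * (m ^ 3 * z ^ 6) * z ^ 3 := by
      rw [hP]
      field_simp
    rw [e2]
    have e3 : C * (m ^ 3 * z ^ 6) ≤ C * 1 := mul_le_mul_of_nonneg_left hmz (by linarith)
    calc C * (m ^ 3 * z ^ 6) * z ^ 3 ≤ C * 1 * z ^ 3 :=
          mul_le_mul_of_nonneg_right e3 (by positivity)
      _ = C * z ^ 3 := by ring
  have hz2 : z ^ 2 ≤ z := by nlinarith
  have hz3 : z ^ 3 ≤ z ^ 2 := by nlinarith [sq_nonneg z, mul_le_mul_of_nonneg_left hz1 (sq_nonneg z)]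
  have e4 : n * (C * m ^ 3 / (z ^ 3 * P) + z ^ 2) / z ≤ n * (C + 1) * z := by
    rw [div_le_iff₀ hz0]
    have e5 : C * m ^ 3 / (z ^ 3 * P) + z ^ 2 ≤ (C + 1) * z ^ 2 := by nlinarith
    calc n * (C * m ^ 3 / (z ^ 3 * P) + z ^ 2) ≤ n * ((C + 1) * z ^ 2) :=
          mul_le_mul_of_nonneg_left e5 (by linarith)
      _ = n * (C + 1) * z * z := by ring
  have e6 : kk * m / P ≤ kk * z := by
    have e7 : kk * m / P = kk * (m * z ^ 12) := by
      rw [hP]
      field_simp
    rw [e7]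
    refine mul_le_mul_of_nonneg_left ?_ hkk
    have e8 : m ≤ m ^ 3 := by nlinarith [sq_nonneg m, mul_le_mul hm hm (by norm_num) (by linarith)]
    have e9 : m * z ^ 6 ≤ 1 := (mul_le_mul_of_nonneg_right e8 (by positivity)).trans hmz
    have e10 : z ^ 6 ≤ z := by
      calc z ^ 6 = z * z ^ 5 := by ring
        _ ≤ z * 1 := mul_le_mul_of_nonneg_left (pow_le_one₀ hz0.le hz1) hz0.le
        _ = z := by ring
    calc m * z ^ 12 = m * z ^ 6 * z ^ 6 := by ring
      _ ≤ 1 * z := mul_le_mul e9 e10 (by positivity) (by norm_num)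
      _ = z := by ring
  have e11 : n * (C * m ^ 3 / (z ^ 3 * P) + z ^ 2) / z + 2 * z + kk * m / P ≤
      n * (C + 3 + kk) * z := by
    have e12 : (2 + kk) * z ≤ n * ((2 + kk) * z) := by
      have : 0 ≤ (2 + kk) * z := by positivity
      nlinarith
    nlinarith
  calc (n : ℝ) * (n * (C * m ^ 3 / (z ^ 3 * P) + z ^ 2) / z + 2 * z + kk * m / P) ≤
      n * (n * (C + 3 + kk) * z) := mul_le_mul_of_nonneg_left e11 (by linarith)
    _ = _ := by ring

private lemma good_mono {k : ℕ} {S : Finset ℕ} {V : Set (X k)} {Gd : ℕ → ℕ → Set (X k)}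
    {kap kap' : ℝ} {b : X k} {x : ℕ} (h : kap' ≤ kap) (hg : Good S V Gd kap b x) :
    Good S V Gd kap' b x := ⟨hg.1, fun S' hS' => h.trans (hg.2 S' hS')⟩

private lemma mass_mono' {k D : ℕ} {T T' : X k → ℕ → Prop} (h : ∀ b x, T b x → T' b x) :
    mass k D T ≤ mass k D T' := by
  unfold mass
  refine mul_le_mul_of_nonneg_left (mul_le_mul_of_nonneg_left ?_ (by positivity)) (by positivity)
  refine Finset.sum_le_sum fun x _ => measureReal_mono fun b hb => h b x hb

private lemma fam_mono {k : ℕ} {Q : Finset ℕ} {V : Set (X k)} {Gd : ℕ → ℕ → Set (X k)}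
    {Ω kap kap' μ R : ℝ} {m : ℕ} (h : kap' ≤ kap) (hF : Fam k Q V Gd Ω m kap μ R) :
    Fam k Q V Gd Ω m kap' μ R := by
  obtain ⟨F, h1, h2, h3⟩ := hF
  exact ⟨F, h1, fun S hS => ⟨(h2 S hS).1, (h2 S hS).2.1,
    (h2 S hS).2.2.trans (mass_mono' fun b x hg => good_mono h hg)⟩, h3⟩

theorem pf_ITE : T_PMT → T_STA → T_BAS → T_ITE := by
  intro hPMT hSTA hBAS k hk
  obtain ⟨C, hC, hPM⟩ := hPMT k hk
  have hkk : (0 : ℝ) ≤ k := Nat.cast_nonneg k
  refine ⟨32 + C + k, by linarith, ?_⟩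
  intro Q V Ge Gd P m τ Ω ρ h hDat hρ0 hρ1 hmP hbase hPl hQl
  have hΩ := hDat.pos
  have hP1 := hDat.dat.hP
  have hm1 := hDat.dat.hm
  have hP0 : (0 : ℝ) < P := by linarith
  set A : ℝ := 32 + C + k with hA
  have hA0 : 32 ≤ A := by linarith
  set l : ℝ := 1 + Real.log (1 / ρ) with hl
  have hl1 : 1 ≤ l := by
    have : 0 ≤ Real.log (1 / ρ) := Real.log_nonneg (by rw [le_div_iff₀ hρ0]; linarith)
    linarith
  -- the number `z`
  set z : ℝ := P ^ (-(1 / 12) : ℝ) with hzdef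
  have hz0 : 0 < z := Real.rpow_pos_of_pos hP0 _
  have hzinv : z = (P ^ (1 / 12 : ℝ))⁻¹ := by rw [hzdef, Real.rpow_neg hP0.le]
  have hz1 : z ≤ 1 := by
    rw [hzinv]
    exact inv_le_one_of_one_le₀ (Real.one_le_rpow hP1 (by norm_num))
  have hPz : P * z ^ 12 = 1 := by
    rw [hzinv, inv_pow, ← Real.rpow_natCast, ← Real.rpow_mul hP0.le]
    norm_num
    exact mul_inv_cancel₀ hP0.ne'
  have hmz : m ^ 3 * z ^ 6 ≤ 1 := by
    have e1 : z ^ 6 = (P ^ (1 / 2 : ℝ))⁻¹ := by
      rw [hzinv, inv_pow, ← Real.rpow_natCast, ← Real.rpow_mul hP0.le]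
      norm_num
    rw [e1, ← div_eq_mul_inv, div_le_one (Real.rpow_pos_of_pos hP0 _)]
    exact hmP
  have hzle : z ≤ Real.exp (-(A * 2 ^ h * (h + 1) * l)) := by
    rw [hzinv, Real.exp_neg]
    exact inv_anti₀ (Real.exp_pos _) hPl
  -- the claim
  have claim : ∀ j : ℕ, j ≤ h → Fam k Q V Gd Ω (2 ^ j)
      (Real.exp (-(A * (2 ^ j : ℕ) * (j + 1) * l))) (4 * (ρ / 8) ^ (2 ^ j)) (Q.card / 8 ^ j) := by
    intro j
    induction j with
    | zero =>
      intro _
      have h1 := hBAS k Q V Ge Gd P m τ Ω ρ hDat hρ0 hρ1 hbase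
      have h2 : Real.exp (-(A * (2 ^ 0 : ℕ) * ((0 : ℕ) + 1) * l)) ≤ ρ / 2 := by
        have e1 : Real.exp (-(A * (2 ^ 0 : ℕ) * ((0 : ℕ) + 1) * l)) ≤
            Real.exp (-1 + Real.log ρ) := by
          apply Real.exp_le_exp.mpr
          have e2 : Real.log (1 / ρ) = -Real.log ρ := by rw [one_div, Real.log_inv]
          push_cast
          have e3 : 1 * l ≤ A * l := mul_le_mul_of_nonneg_right (by linarith) (by linarith)
          have e4 : l = 1 - Real.log ρ := by rw [hl, e2]; ring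
          have e5 : A * 1 * (0 + 1) * l = A * l := by ring
          rw [e5]
          linarith
        refine e1.trans ?_
        rw [Real.exp_add, Real.exp_log hρ0, Real.exp_neg]
        have e6 : (2 : ℝ) ≤ Real.exp 1 := by
          have := Real.add_one_le_exp (1 : ℝ)
          linarith
        have e7 : (Real.exp 1)⁻¹ ≤ 2⁻¹ := inv_anti₀ (by norm_num) e6
        calc (Real.exp 1)⁻¹ * ρ ≤ 2⁻¹ * ρ := mul_le_mul_of_nonneg_right e7 hρ0.le
          _ = ρ / 2 := by ring
      have h3 : 4 * (ρ / 8) ^ (2 ^ 0) = ρ / 2 := by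
        norm_num
        ring
      have h4 : (Q.card : ℝ) / 8 ^ 0 = Q.card := by norm_num
      rw [h3, h4]
      exact fam_mono h2 h1
    | succ j ih =>
      intro hj
      have hFj := ih (by omega)
      set n : ℕ := 2 ^ j with hn
      have hn1 : 1 ≤ n := Nat.one_le_two_pow
      have hn1' : (1 : ℝ) ≤ n := by exact_mod_cast hn1
      have hnl : 1 ≤ (n : ℝ) * l := by nlinarith
      set μ : ℝ := 4 * (ρ / 8) ^ n with hμdef
      have hμ0 : 0 < μ := by positivity
      have hμ : Real.exp (-(3 * n * l)) ≤ μ := mu_lower hρ0 hρ1 n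
      set kap : ℝ := Real.exp (-(A * n * (j + 1) * l)) with hkap
      have hkap0 : 0 < kap := Real.exp_pos _
      set q4 : ℝ := (1 / 4 : ℝ) ^ n with hq4
      have hq40 : 0 < q4 := by positivity
      have h4q : (2 : ℝ) ^ (2 * n) * q4 = 1 := by
        rw [hq4, pow_mul, ← mul_pow]
        norm_num
      have h2h : 2 * (n : ℝ) ≤ 2 ^ h := by
        have e1 : 2 ^ (j + 1) ≤ 2 ^ h := Nat.pow_le_pow_right (by norm_num) hj
        have e2 : (2 * n : ℕ) ≤ 2 ^ h := by
          rw [hn, ← pow_succ']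
          exact e1
        exact_mod_cast e2
      have hjh : (j : ℝ) + 2 ≤ h + 1 := by
        have : j + 1 ≤ h := hj
        have : ((j + 1 : ℕ) : ℝ) ≤ h := by exact_mod_cast this
        push_cast at this
        linarith
      have hj0 : (0 : ℝ) ≤ j := Nat.cast_nonneg j
      have hz2 : z ≤ Real.exp (-(A * (2 * n) * (j + 2) * l)) := by
        refine hzle.trans (Real.exp_le_exp.mpr (neg_le_neg ?_))
        have e1 : A * (2 * n) ≤ A * 2 ^ h := mul_le_mul_of_nonneg_left h2h (by linarith)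
        have e2 : A * (2 * n) * (j + 2) ≤ A * 2 ^ h * (h + 1) :=
          mul_le_mul e1 hjh (by linarith) (by positivity)
        exact mul_le_mul_of_nonneg_right e2 (by linarith)
      have hnum := step_num (j := j) hn1 hl1 hC hkk le_rfl hμ hz0 hz2
      have herr := err_num hn1 hC hkk hz0 hz1 hm1 hPz hmz
      set E : ℝ := (n : ℝ) * (n * (C * m ^ 3 / (z ^ 3 * P) + z ^ 2) / z + 2 * z + k * m / P) * Ω
        with hE
      have hE1 : E ≤ kap * (μ ^ 4 * q4 ^ 2 / 2 ^ 11) * Ω :=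
        mul_le_mul_of_nonneg_right (herr.trans hnum) hΩ.le
      set kap' : ℝ := kap * μ ^ 2 * q4 / 64 with hkap'
      have hkap'0 : 0 < kap' := by positivity
      have hPME : ∀ S₁ ⊆ Q, ∀ S₂ ⊆ Q, Disjoint S₁ S₂ → S₁.card ≤ n → S₂.card ≤ n →
          PM k S₁ S₂ V Gd ≤ E := by
        intro S₁ h1 S₂ h2 h12 hc1 hc2
        refine (hPM Q V Ge Gd P m τ Ω z z hDat hz0 hz1 hz0 S₁ h1 S₂ h2 h12).trans ?_
        have hc1' : (S₁.card : ℝ) ≤ n := by exact_mod_cast hc1
        have hc2' : (S₂.card : ℝ) ≤ n := by exact_mod_cast hc2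
        have hX : 0 ≤ C * m ^ 3 / (z ^ 3 * P) + z ^ 2 := by positivity
        refine mul_le_mul_of_nonneg_right ?_ hΩ.le
        refine mul_le_mul hc1' ?_ ?_ (by linarith)
        · have e1 : S₂.card * (C * m ^ 3 / (z ^ 3 * P) + z ^ 2) / z ≤
              n * (C * m ^ 3 / (z ^ 3 * P) + z ^ 2) / z :=
            div_le_div_of_nonneg_right (mul_le_mul_of_nonneg_right hc2' hX) hz0.le
          linarith
        · positivity
      have hcond : (2 : ℝ) ^ (2 * n) * (8 * kap' / kap * Ω + 4 * E / kap') ≤ μ ^ 2 / 4 * Ω := by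
        have e1 : (2 : ℝ) ^ (2 * n) * (8 * kap' / kap * Ω) = μ ^ 2 / 8 * Ω := by
          have : 8 * kap' / kap = q4 * (μ ^ 2 / 8) := by
            rw [hkap']
            field_simp
            ring
          rw [this]
          calc (2 : ℝ) ^ (2 * n) * (q4 * (μ ^ 2 / 8) * Ω) =
              ((2 : ℝ) ^ (2 * n) * q4) * (μ ^ 2 / 8 * Ω) := by ring
            _ = μ ^ 2 / 8 * Ω := by rw [h4q, one_mul]
        have e2 : 4 * E / kap' ≤ q4 * (μ ^ 2 / 8 * Ω) := by
          rw [div_le_iff₀ hkap'0]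
          have : q4 * (μ ^ 2 / 8 * Ω) * kap' = 4 * (kap * (μ ^ 4 * q4 ^ 2 / 2 ^ 11) * Ω) := by
            rw [hkap']
            ring
          rw [this]
          linarith
        have e3 : (2 : ℝ) ^ (2 * n) * (4 * E / kap') ≤ μ ^ 2 / 8 * Ω := by
          calc (2 : ℝ) ^ (2 * n) * (4 * E / kap') ≤
              (2 : ℝ) ^ (2 * n) * (q4 * (μ ^ 2 / 8 * Ω)) :=
                mul_le_mul_of_nonneg_left e2 (by positivity)
            _ = ((2 : ℝ) ^ (2 * n) * q4) * (μ ^ 2 / 8 * Ω) := by ring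
            _ = μ ^ 2 / 8 * Ω := by rw [h4q, one_mul]
        rw [mul_add, e1]
        linarith
      have hR : 16 / μ ^ 2 ≤ Q.card / 8 ^ j := by
        rw [div_le_div_iff₀ (by positivity) (by positivity)]
        have e1 : (16 : ℝ) ≤ Real.exp 4 := by
          have := two_pow_le_exp 4
          norm_num at this
          exact this
        have e2 : (8 : ℝ) ^ j ≤ Real.exp (3 * n) := by
          have e3 := two_pow_le_exp (3 * j)
          have e4 : (2 : ℝ) ^ (3 * j) = 8 ^ j := by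
            rw [pow_mul]
            norm_num
          rw [e4] at e3
          refine e3.trans (Real.exp_le_exp.mpr ?_)
          have e5 : j ≤ n := (Nat.lt_two_pow_self (n := j)).le
          push_cast
          have : (j : ℝ) ≤ n := by exact_mod_cast e5
          linarith
        have e6 : Real.exp (-(6 * n * l)) ≤ μ ^ 2 := by
          calc Real.exp (-(6 * n * l)) = Real.exp (-(3 * n * l)) ^ 2 := by
                rw [← Real.exp_nat_mul]
                congr 1
                push_cast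
                ring
            _ ≤ μ ^ 2 := pow_le_pow_left₀ (Real.exp_nonneg _) hμ 2
        have e7 : Real.exp (A * (2 * n) * l) ≤ Q.card := by
          refine le_trans (Real.exp_le_exp.mpr ?_) hQl
          exact mul_le_mul_of_nonneg_right (mul_le_mul_of_nonneg_left h2h (by linarith))
            (by linarith)
        calc (16 : ℝ) * 8 ^ j ≤ Real.exp 4 * Real.exp (3 * n) :=
              mul_le_mul e1 e2 (by positivity) (Real.exp_nonneg _)
          _ = Real.exp (4 + 3 * n) := (Real.exp_add _ _).symm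
          _ ≤ Real.exp (A * (2 * n) * l + -(6 * n * l)) := by
              apply Real.exp_le_exp.mpr
              have a1 : 32 * (n * l) ≤ A * (n * l) :=
                mul_le_mul_of_nonneg_right hA0 (by linarith)
              have a2 : (n : ℝ) ≤ n * l := by nlinarith
              nlinarith
          _ = Real.exp (A * (2 * n) * l) * Real.exp (-(6 * n * l)) := Real.exp_add _ _
          _ ≤ Q.card * μ ^ 2 := mul_le_mul e7 e6 (Real.exp_nonneg _) (Nat.cast_nonneg _)
      have hS := hSTA k Q V Ge Gd P m τ Ω kap kap' μ (Q.card / 8 ^ j) E n hDat hkap0 hkap'0 hμ0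
        hn1 hPME hcond hR hFj
      have hμn : μ ^ 2 / 4 = 4 * (ρ / 8) ^ (2 ^ (j + 1)) := by
        rw [hμdef, hn, pow_succ 2 j, pow_mul (ρ / 8) (2 ^ j) 2]
        ring
      have hRn : (Q.card : ℝ) / 8 ^ j / 8 = Q.card / 8 ^ (j + 1) := by
        rw [pow_succ, div_div]
      have hnn : 2 * n = 2 ^ (j + 1) := by rw [hn, pow_succ']
      have hkn : Real.exp (-(A * (2 ^ (j + 1) : ℕ) * ((j + 1 : ℕ) + 1) * l)) ≤ kap' ^ 2 / 2 := by
        have e1 : kap' ^ 2 / 2 = kap ^ 2 * (μ ^ 4 * q4 ^ 2 / 2 ^ 13) := by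
          rw [hkap']
          ring
        have e2 : kap ^ 2 = Real.exp (-(2 * (A * n * (j + 1) * l))) := by
          rw [hkap, ← Real.exp_nat_mul]
          congr 1
          push_cast
          ring
        have e3 := low_num hμ 13
        rw [e1, e2]
        refine le_trans ?_ (mul_le_mul_of_nonneg_left e3 (Real.exp_nonneg _))
        rw [← Real.exp_add]
        apply Real.exp_le_exp.mpr
        rw [← hnn]
        push_cast
        have a1 : 32 * (n * l) ≤ A * (n * l) := mul_le_mul_of_nonneg_right hA0 (by linarith)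
        have a2 : (n : ℝ) ≤ n * l := by nlinarith
        nlinarith
      have h5 := fam_mono hkn hS
      rw [hμn, hRn, hnn] at h5
      exact h5
  obtain ⟨F, hF1, hF2, -⟩ := claim h le_rfl
  have hQ0 : (0 : ℝ) < Q.card := lt_of_lt_of_le (Real.exp_pos _) hQl
  have hF0 : F.Nonempty := by
    rw [← Finset.card_pos]
    have : (0 : ℝ) < F.card := lt_of_lt_of_le (by positivity) hF1
    exact_mod_cast this
  obtain ⟨S, hS⟩ := hF0
  obtain ⟨h1, h2, h3⟩ := hF2 S hS
  refine ⟨S, h1, h2, ?_⟩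
  have e1 : Real.exp (-(A * 2 ^ h * l)) ≤ 4 * (ρ / 8) ^ (2 ^ h) := by
    refine le_trans (Real.exp_le_exp.mpr (neg_le_neg ?_)) (mu_lower hρ0 hρ1 (2 ^ h))
    push_cast
    have a1 : (0 : ℝ) ≤ 2 ^ h * l := by positivity
    nlinarith
  have e2 := (mul_le_mul_of_nonneg_right e1 hΩ.le).trans h3
  push_cast at e2
  exact e2

end Pool.Agent.H38.EH
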